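import Pool.Agent.Lib.MP_8ae0c1_agJ.Quad

/-!
# MP_8ae0c1_ag: a subfield over which the function field is ramified is rational
-/

set_option autoImplicit false
set_option linter.unusedSectionVars false

namespace Pool.Agent.Lib.MP_8ae0c1_agJ

open EllFF Module Polynomial

variable {Ω : Type} [Field Ω] [IsAlgClosed Ω] [CharZero Ω] {l : Ω} [Leg l]

/-- The trace of a quadratic element is the linear coefficient. -/
theorem quad_trace (F : IntermediateField Ω (KL l)) [FiniteDimensional F (KL l)] {y : KL l}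
    (hy : y ∉ F) (h0 : pr F y = 0) {a b : KL l} (ha : a ∈ F) (hb : b ∈ F)
    (e : y ^ 2 = a + b * y) : b = 0 := by
  have hcz := charZero_KL (l := l)
  have hn : (finrank F (KL l) : KL l) ≠ 0 := Nat.cast_ne_zero.2 finrank_pos.ne'
  have h1 : Algebra.trace F (KL l) y = 0 := by
    unfold pr at h0
    have h2 := (mul_eq_zero.1 h0).resolve_left (inv_ne_zero hn)
    exact (FaithfulSMul.algebraMap_eq_zero_iff F (KL l)).1 h2
  rw [trace_eq_finrank_mul_minpoly_nextCoeff] at h1
  have hczF : CharZero F := charZero_of_injective_algebraMap (algebraMap Ω F).injective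
  have h2 : (minpoly F y).nextCoeff = 0 := by
    rcases mul_eq_zero.1 h1 with h3 | h3
    · exact absurd h3 (Nat.cast_ne_zero.2 finrank_pos.ne')
    · exact neg_eq_zero.1 h3
  set b' : F := ⟨b, hb⟩ with hb'
  set a' : F := ⟨a, ha⟩ with ha'
  set f : Polynomial F := X ^ 2 + (C (-b') * X + C (-a')) with hf
  have hdeg : (C (-b') * X + C (-a')).degree < ((2 : ℕ) : WithBot ℕ) := by
    refine lt_of_le_of_lt (degree_linear_le (a := -b') (b := -a')) ?_
    norm_num
  have hmon : f.Monic := monic_X_pow_add hdeg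
  have hnat : f.natDegree = 2 := by
    refine natDegree_eq_of_degree_eq_some ?_
    rw [hf, degree_add_eq_left_of_degree_lt (by rw [degree_X_pow]; exact hdeg), degree_X_pow]
  have hroot : aeval y f = 0 := by
    rw [hf]
    simp only [map_add, map_mul, map_pow, aeval_X, aeval_C, map_neg]
    have h3 : algebraMap F (KL l) b' = b := rfl
    have h4 : algebraMap F (KL l) a' = a := rfl
    rw [h3, h4, e]
    ring
  have hint : IsIntegral F y := ⟨f, hmon, hroot⟩
  have h3 : 2 ≤ (minpoly F y).natDegree := by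
    rw [minpoly.two_le_natDegree_iff hint]
    rintro ⟨z, hz⟩
    exact hy (hz ▸ z.2)
  have h4 : f = minpoly F y :=
    eq_of_monic_of_dvd_of_natDegree_le (minpoly.monic hint) hmon (minpoly.dvd F y hroot)
      (by rw [hnat]; exact h3)
  rw [← h4, nextCoeff_of_natDegree_pos (by rw [hnat]; norm_num), hnat, hf] at h2
  simp at h2
  exact congrArg Subtype.val h2

/-- **Rationality.** -/
theorem rational (M : IntermediateField Ω (KL l)) (hM : ∃ h ∈ M, NonConst h) (P : Place l)
    {e : ℤ} (he : 2 ≤ e) (hdvd : ∀ h ∈ M, h ≠ 0 → e ∣ ord P h) :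
    ∃ ξ ∈ M, NonConst ξ ∧ ∀ h ∈ M, h ∈ IntermediateField.adjoin Ω {ξ} := by
  classical
  -- the function with the fewest poles
  have hex : ∃ n : ℕ, ∃ g ∈ M, NonConst g ∧ npoles g = n := by
    obtain ⟨g, hg, hg1⟩ := hM
    exact ⟨(npoles g).toNat, g, hg, hg1, (Int.toNat_of_nonneg (npoles_pos hg1).le).symm⟩
  obtain ⟨ξ, hξM, hξ, hn⟩ := Nat.find_spec hex
  have hmin : ∀ g ∈ M, NonConst g → npoles ξ ≤ npoles g := by
    intro g hg hg1
    have h1 := Nat.find_min' hex ⟨g, hg, hg1, (Int.toNat_of_nonneg (npoles_pos hg1).le).symm⟩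
    have h2 := Int.toNat_of_nonneg (npoles_pos hg1).le
    rw [hn, ← h2]
    exact_mod_cast h1
  refine ⟨ξ, hξM, hξ, ?_⟩
  have hξ0 := hξ.ne_zero
  set F := IntermediateField.adjoin Ω {ξ} with hF
  have hfinF : FiniteDimensional F (KL l) := finite_adjoin hξ
  have hξF : ξ ∈ F := IntermediateField.subset_adjoin _ _ rfl
  have hFM : F ≤ M := by
    rw [hF, IntermediateField.adjoin_le_iff]
    rintro _ rfl
    exact hξM
  obtain ⟨η, hηM, hηb, hgen⟩ := two_gen M hξM hξ hmin
  by_contra hcon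
  push Not at hcon
  obtain ⟨m, hmM, hmF⟩ := hcon
  have hηF : η ∉ F := by
    intro h1
    obtain ⟨a, ha, b, hb, e1⟩ := hgen m hmM
    exact hmF (e1 ▸ add_mem ha (mul_mem hb h1))
  set y := η - pr F η with hy
  have hyM : y ∈ M := sub_mem hηM (hFM (pr_mem F η))
  have hyF : y ∉ F := fun h1 => hηF (by
    have h2 := add_mem h1 (pr_mem F η)
    rwa [hy, sub_add_cancel] at h2)
  have hyb : Bdd ξ 2 y := hηb.sub (pr_bdd F hξF hξ0 hηb)
  have hpr : pr F y = 0 := by
    have h1 : pr F η = pr F y + pr F (pr F η) := by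
      rw [← pr_add, hy, sub_add_cancel]
    rw [pr_self F (pr_mem F η)] at h1
    linear_combination (-1 : KL l) * h1
  have hy0 : y ≠ 0 := fun h1 => hyF (by rw [h1]; exact zero_mem F)
  obtain ⟨q, hq4, hq⟩ : ∃ q : Polynomial Ω, q.natDegree ≤ 4 ∧ y ^ 2 = aeval ξ q := by
    obtain ⟨a, ha, b, hb, e1⟩ := hgen (y ^ 2) (pow_mem hyM 2)
    have e2 : y ^ 2 = (a + b * pr F η) + b * y := by
      rw [e1, hy]
      ring
    have hb0 := quad_trace F hyF hpr (add_mem ha (mul_mem hb (pr_mem F η))) hb e2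
    rw [hb0, zero_mul, zero_mul, add_zero, add_zero] at e2
    have h1 : Bdd ξ 4 (y ^ 2) := by
      rw [sq]
      exact hyb.mul hyb
    exact poly_of_bdd hξ (by rw [e2]; exact ha) h1
  have hq0 : q ≠ 0 := fun h1 => pow_ne_zero 2 hy0 (by rw [hq, h1, map_zero])
  have hord : ∀ Q, 2 * ord Q y = ord Q (aeval ξ q) := by
    intro Q
    rw [← hq, ord_pow]
    norm_num
  -- elements with at most the poles of `ξ` belong to `F`
  have hlin : ∀ g ∈ M, Bdd ξ 1 g → g ∈ F := by
    intro g hg hgb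
    obtain ⟨a, b, e1⟩ := lin_of_bdd hξM hξ hmin hg hgb
    rw [e1]
    exact add_mem (F.algebraMap_mem a) (mul_mem (F.algebraMap_mem b) hξF)
  have hq3 : 3 ≤ q.natDegree := by
    by_contra hlt
    push Not at hlt
    refine hyF (hlin y hyM fun Q => ?_)
    by_cases hQ : 0 ≤ ord Q ξ
    · have h1 := hyb Q
      rw [pol_of_ge hQ, mul_zero, neg_zero] at h1 ⊢
      exact h1
    · push Not at hQ
      right
      have h1 := hord Q
      rw [(ord_poly_pole hQ hq0).2] at h1
      rw [pol_of_lt hQ]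
      have h2 : (q.natDegree : ℤ) ≤ 2 := by exact_mod_cast (by omega : q.natDegree ≤ 2)
      push_cast
      nlinarith
  have hsq : ∀ (g : Ω) (q' : Polynomial Ω), q ≠ (X - C g) ^ 2 * q' := by
    intro g q' hqq
    have hg0 : ξ - algebraMap Ω (KL l) g ≠ 0 := (hξ.sub g).ne_zero
    have hgF : ξ - algebraMap Ω (KL l) g ∈ F := sub_mem hξF (F.algebraMap_mem g)
    have hq'0 : q' ≠ 0 := fun h1 => hq0 (by rw [hqq, h1, mul_zero])
    set y2 := y / (ξ - algebraMap Ω (KL l) g) with hy2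
    have hy2M : y2 ∈ M := div_mem hyM (hFM hgF)
    have h1 : y2 ^ 2 = aeval ξ q' := by
      rw [hy2, div_pow, hq, hqq, map_mul, map_pow, map_sub, aeval_X, aeval_C,
        mul_div_cancel_left₀ _ (pow_ne_zero 2 hg0)]
    have hy20 : y2 ≠ 0 := div_ne_zero hy0 hg0
    have hdeg : q'.natDegree ≤ 2 := by
      have h2 := congrArg natDegree hqq
      rw [natDegree_mul (pow_ne_zero 2 (X_sub_C_ne_zero g)) hq'0, natDegree_pow,
        natDegree_X_sub_C] at h2
      omega
    have hord2 : ∀ Q, 2 * ord Q y2 = ord Q (aeval ξ q') := by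
      intro Q
      rw [← h1, ord_pow]
      norm_num
    have h2 : y2 ∈ F := by
      refine hlin y2 hy2M fun Q => ?_
      by_cases hQ : 0 ≤ ord Q ξ
      · rw [pol_of_ge hQ, mul_zero, neg_zero]
        right
        have h3 := (OrdGe.poly_reg (Q := Q) (ξ := ξ) (Or.inr hQ) q').le
          (by rw [← h1]; exact pow_ne_zero 2 hy20)
        have h4 := hord2 Q
        omega
      · push Not at hQ
        right
        have h3 := hord2 Q
        rw [(ord_poly_pole hQ hq'0).2] at h3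
        rw [pol_of_lt hQ]
        have h4 : (q'.natDegree : ℤ) ≤ 2 := by exact_mod_cast hdeg
        push_cast
        nlinarith
    refine hyF ?_
    have h3 : y = y2 * (ξ - algebraMap Ω (KL l) g) := by rw [hy2, div_mul_cancel₀ _ hg0]
    rw [h3]
    exact mul_mem h2 hgF
  -- `∂ξ / y` has no poles
  have hd0 : dd ξ ≠ 0 := fun h1 => by
    obtain ⟨a, ha⟩ := dd_eq_zero h1
    exact hξ a ha
  have hdg : ∀ g : Ω, dd (ξ - algebraMap Ω (KL l) g) = dd ξ := by
    intro g
    rw [map_sub, Derivation.map_algebraMap, sub_zero]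
  have hno : ∀ Q, OrdGe Q 0 (dd ξ / y) := by
    intro Q
    right
    rw [ord_div Q hd0 hy0]
    by_cases hQ : 0 ≤ ord Q ξ
    · obtain ⟨g, hg⟩ := exists_residue Q (f := ξ) (Or.inr hQ)
      have hg0 : ξ - algebraMap Ω (KL l) g ≠ 0 := (hξ.sub g).ne_zero
      have h1 := hg.le hg0
      have h2 := (dd_ord Q hg0 (by omega)).2
      rw [hdg] at h2
      by_cases hr : q.eval g = 0
      · obtain ⟨q1, hq1⟩ := dvd_iff_isRoot.2 (show q.IsRoot g from hr)
        have hr1 : q1.eval g ≠ 0 := by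
          intro h3
          obtain ⟨q2, hq2⟩ := dvd_iff_isRoot.2 (show q1.IsRoot g from h3)
          exact hsq g q2 (by rw [hq1, hq2]; ring)
        obtain ⟨h3, h4⟩ := ord_poly_at hg hr1
        have h5 := hord Q
        rw [hq1, map_mul, map_sub, aeval_X, aeval_C, ord_mul Q hg0 h3, h4] at h5
        omega
      · have h5 := hord Q
        rw [(ord_poly_at hg hr).2] at h5
        omega
    · push Not at hQ
      have h2 := (dd_ord Q hξ0 hQ.ne).2
      have h5 := hord Q
      rw [(ord_poly_pole hQ hq0).2] at h5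
      have h6 : q.natDegree = 3 ∨ q.natDegree = 4 := by omega
      rcases h6 with h6 | h6
      · rw [h6] at h5
        push_cast at h5
        omega
      · rw [h6] at h5
        push_cast at h5
        omega
  obtain ⟨a, ha⟩ := const_of_no_poles hno
  have hdM : dd ξ ∈ M := by
    have h1 : dd ξ = algebraMap Ω (KL l) a * y := by rw [← ha, div_mul_cancel₀ _ hy0]
    rw [h1]
    exact mul_mem (M.algebraMap_mem a) hyM
  -- contradiction to the ramification
  obtain ⟨g, hgM, hg0, hgo, hgd⟩ : ∃ g ∈ M, g ≠ 0 ∧ ord P g ≠ 0 ∧ dd g = dd ξ := by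
    by_cases hQ : 0 ≤ ord P ξ
    · obtain ⟨g, hg⟩ := exists_residue P (f := ξ) (Or.inr hQ)
      have hg0 : ξ - algebraMap Ω (KL l) g ≠ 0 := (hξ.sub g).ne_zero
      have h1 := hg.le hg0
      exact ⟨_, sub_mem hξM (M.algebraMap_mem g), hg0, by omega, hdg g⟩
    · push Not at hQ
      exact ⟨ξ, hξM, hξ0, hQ.ne, rfl⟩
  have h1 := hdvd g hgM hg0
  have h2 := hdvd _ hdM hd0
  rw [← hgd, (dd_ord P hg0 hgo).2] at h2
  have h3 : e ∣ 1 := by
    have h4 := dvd_sub h1 h2
    rwa [sub_sub_cancel] at h4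
  have h4 := Int.le_of_dvd one_pos h3
  omega

/-- **Section 5.** -/
theorem sec5 (v : Fin 3 → KL l) (j : Fin 3) (hj : v j ≠ 0) (D : Derivation ℤ Ω Ω) (hD : D l = 0)
    (c : KL l) (hc : ∀ a : Ω, c ≠ algebraMap Ω (KL l) a)
    (hk : ∀ i, dext D (v i / v j) = c * dd (v i / v j))
    (hn : ∃ i, ∀ a : Ω, v i / v j ≠ algebraMap Ω (KL l) a) :
    ∃ ξ : KL l, (∀ a : Ω, ξ ≠ algebraMap Ω (KL l) a) ∧
      ∀ i, v i / v j ∈ IntermediateField.adjoin Ω {ξ} := by
  obtain ⟨P, hP⟩ := NonConst.exists_pole (h := c) hc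
  have hc0 : c ≠ 0 := NonConst.ne_zero (h := c) hc
  have h1 := ramified v j hj D hD c hk P hc0 (by omega)
  obtain ⟨i, hi⟩ := hn
  have hmem : ∀ i, v i / v j ∈ IntermediateField.adjoin Ω (Set.range fun i => v i / v j) :=
    fun i => IntermediateField.subset_adjoin _ _ ⟨i, rfl⟩
  obtain ⟨ξ, _, hξ, h2⟩ := rational _ ⟨_, hmem i, hi⟩ P (e := 1 - ord P c) (by omega) h1
  exact ⟨ξ, hξ, fun i => h2 _ (hmem i)⟩

end Pool.Agent.Lib.MP_8ae0c1_agJ
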