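import Pool.Agent.Lib.MP_8ae0c1_agJ.Tr

/-!
# MP_8ae0c1_ag: the spaces of functions with poles at the poles of `ξ`
-/

set_option autoImplicit false
set_option linter.unusedSectionVars false

namespace Pool.Agent.Lib.MP_8ae0c1_agJ

open EllFF Module

variable {Ω : Type} [Field Ω] [IsAlgClosed Ω] [CharZero Ω] {l : Ω} [Leg l]

/-- A function which is not constant. -/
def NonConst (h : KL l) : Prop := ∀ a : Ω, h ≠ algebraMap Ω (KL l) a

theorem NonConst.ne_zero {h : KL l} (hh : NonConst h) : h ≠ 0 := fun h0 => hh 0 (by rw [h0, map_zero])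

theorem NonConst.exists_pole {h : KL l} (hh : NonConst h) : ∃ P : Place l, ord P h < 0 := by
  by_contra hcon
  push Not at hcon
  obtain ⟨a, ha⟩ := const_of_no_poles (f := h) fun P => Or.inr (hcon P)
  exact hh a ha

theorem pol_support (ξ : KL l) (hξ : ξ ≠ 0) : (Function.support (pol ξ)).Finite := by
  refine (ord_support hξ).subset fun P hP => ?_
  rw [Function.mem_support] at hP ⊢
  intro h
  apply hP
  unfold pol
  omega

theorem npoles_eq (ξ : KL l) : npoles ξ = ∑ᶠ P, pol ξ P := rfl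

/-- fewer poles -/
theorem npoles_lt {ξ g : KL l} (hξ : ξ ≠ 0) (hg : g ≠ 0) (hle : ∀ P, pol g P ≤ pol ξ P)
    {Q : Place l} (hQ : pol g Q < pol ξ Q) : npoles g < npoles ξ := by
  classical
  set s := (pol_support ξ hξ).toFinset ∪ (pol_support g hg).toFinset with hs
  have h1 : npoles g = ∑ P ∈ s, pol g P := by
    rw [npoles_eq]
    refine finsum_eq_sum_of_support_subset _ fun P hP => ?_
    rw [hs, Finset.coe_union]
    right
    simpa using hP
  have h2 : npoles ξ = ∑ P ∈ s, pol ξ P := by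
    rw [npoles_eq]
    refine finsum_eq_sum_of_support_subset _ fun P hP => ?_
    rw [hs, Finset.coe_union]
    left
    simpa using hP
  rw [h1, h2]
  refine Finset.sum_lt_sum (fun P _ => hle P) ⟨Q, ?_, hQ⟩
  rw [hs, Finset.mem_union]
  left
  have := pol_nonneg g Q
  simp only [Set.Finite.mem_toFinset, Function.mem_support]
  omega

/-- Functions of `M` with at most the poles of `ξ`. -/
theorem lin_of_bdd {M : IntermediateField Ω (KL l)} {ξ : KL l} (hξM : ξ ∈ M) (hξ : NonConst ξ)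
    (hmin : ∀ g ∈ M, NonConst g → npoles ξ ≤ npoles g) {g : KL l} (hgM : g ∈ M)
    (hg : Bdd ξ 1 g) : ∃ a b : Ω, g = algebraMap Ω (KL l) a + algebraMap Ω (KL l) b * ξ := by
  obtain ⟨Q, hQ⟩ := hξ.exists_pole
  have hξ0 := hξ.ne_zero
  have h1 : OrdGe Q 0 (g * ξ⁻¹) := by
    have h2 := (hg Q).mul (show OrdGe Q (-ord Q ξ) ξ⁻¹ from Or.inr (ord_inv Q ξ).ge)
    refine h2.mono ?_
    rw [pol_of_lt hQ]
    push_cast
    linarith
  obtain ⟨b, hb⟩ := exists_residue Q h1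
  set g1 := g - algebraMap Ω (KL l) b * ξ with hg1
  have h2 : g1 = ξ * (g * ξ⁻¹ - algebraMap Ω (KL l) b) := by
    rw [hg1]
    field_simp
  have h3 : OrdGe Q (ord Q ξ + 1) g1 := by
    rw [h2]
    exact (show OrdGe Q (ord Q ξ) ξ from Or.inr le_rfl).mul hb
  have hb1 : Bdd ξ 1 (algebraMap Ω (KL l) b * ξ) := by
    have h4 := (Bdd.const ξ b).mul (Bdd.self ξ)
    rwa [zero_add] at h4
  have h4 : Bdd ξ 1 g1 := hg.sub hb1
  have h5 : ¬ NonConst g1 := by
    intro hnc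
    have h6 : g1 ∈ M := sub_mem hgM (mul_mem (M.algebraMap_mem b) hξM)
    refine absurd (hmin g1 h6 hnc) (not_le.2 (npoles_lt hξ0 hnc.ne_zero (fun P => ?_) (Q := Q) ?_))
    · have h7 := (h4 P).le hnc.ne_zero
      have h8 := pol_nonneg ξ P
      unfold pol at h7 h8 ⊢
      push_cast at h7
      omega
    · have h7 := h3.le hnc.ne_zero
      rw [pol_of_lt hQ]
      unfold pol
      omega
  unfold NonConst at h5
  push Not at h5
  obtain ⟨a, ha⟩ := h5
  exact ⟨a, b, by rw [← ha, hg1]; ring⟩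

/-- The space of the functions with poles at most `j` times the poles of `ξ`. -/
noncomputable def V (ξ : KL l) (j : ℕ) : Submodule Ω (KL l) := LSp fun P => j * pol ξ P

theorem mem_V {ξ : KL l} {j : ℕ} {h : KL l} : h ∈ V ξ j ↔ Bdd ξ j h := Iff.rfl

theorem V_support (ξ : KL l) (hξ : ξ ≠ 0) (j : ℕ) :
    (Function.support fun P => (j : ℤ) * pol ξ P).Finite :=
  (pol_support ξ hξ).subset fun P hP => by
    rw [Function.mem_support] at hP ⊢
    exact fun h => hP (by rw [h, mul_zero])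

theorem V_sum (ξ : KL l) (j : ℕ) : ∑ᶠ P, (j : ℤ) * pol ξ P = j * npoles ξ := by
  rw [npoles_eq, mul_finsum]

theorem npoles_pos {ξ : KL l} (hξ : NonConst ξ) : 0 < npoles ξ := by
  obtain ⟨Q, hQ⟩ := hξ.exists_pole
  have h1 : pol ξ Q ≤ npoles ξ := by
    rw [npoles_eq]
    exact single_le_finsum Q (pol_support ξ hξ.ne_zero) fun P => pol_nonneg ξ P
  have h2 := pol_of_lt hQ
  omega

theorem V_finite {ξ : KL l} (hξ : ξ ≠ 0) (j : ℕ) : FiniteDimensional Ω (V ξ j) :=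
  LSp_finite (V_support ξ hξ j)

theorem V_finrank {ξ : KL l} (hξ : NonConst ξ) {j : ℕ} (hj : 1 ≤ j) :
    (finrank Ω (V ξ j) : ℤ) = j * npoles ξ := by
  have h1 := npoles_pos hξ
  have h2 : 0 < ∑ᶠ P, (j : ℤ) * pol ξ P := by
    rw [V_sum]
    have : (1 : ℤ) ≤ j := by exact_mod_cast hj
    positivity
  have h3 := LSp_eq (V_support ξ hξ.ne_zero j) h2
  rw [V_sum] at h3
  exact h3

theorem V_zero_finrank {ξ : KL l} (hξ : ξ ≠ 0) : finrank Ω (V ξ 0) ≤ 1 := by
  have h1 := LSp_le (V_support ξ hξ 0)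
  rw [V_sum] at h1
  have h2 : (finrank Ω (V ξ 0) : ℤ) ≤ 1 := by
    refine h1.trans ?_
    simp
  exact_mod_cast h2

theorem V_mono {ξ : KL l} {i j : ℕ} (hij : i ≤ j) : V ξ i ≤ V ξ j := fun _ h => Bdd.mono hij h

/-- multiplication by `ξ` -/
noncomputable def mulL (ξ : KL l) : KL l →ₗ[Ω] KL l := LinearMap.mulLeft Ω ξ

theorem mulL_apply (ξ h : KL l) : mulL ξ h = ξ * h := rfl

theorem mulL_inj {ξ : KL l} (hξ : ξ ≠ 0) : Function.Injective (mulL ξ) := fun a b hab =>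
  mul_left_cancel₀ hξ hab

theorem V_mul_le (ξ : KL l) (j : ℕ) : (V ξ j).map (mulL ξ) ≤ V ξ (j + 1) := by
  rintro _ ⟨h, hh, rfl⟩
  have h1 := (Bdd.self ξ).mul (mem_V.1 hh)
  rw [add_comm] at h1
  exact h1

/-- the intersection of `V j` and `ξ V j` -/
theorem V_inf_le {ξ : KL l} (hξ : ξ ≠ 0) {j : ℕ} (hj : 1 ≤ j) :
    V ξ j ⊓ (V ξ j).map (mulL ξ) ≤ (V ξ (j - 1)).map (mulL ξ) := by
  rintro _ ⟨h1, ⟨g, hg, rfl⟩⟩
  refine ⟨g, ?_, rfl⟩
  have h1 : Bdd ξ j (ξ * g) := h1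
  have hg : Bdd ξ j g := hg
  show Bdd ξ (j - 1) g
  intro P
  by_cases hP : 0 ≤ ord P ξ
  · have h2 := hg P
    rw [pol_of_ge hP, mul_zero, neg_zero] at h2 ⊢
    exact h2
  · push Not at hP
    have h2 := h1 P
    have h3 := (show OrdGe P (-ord P ξ) ξ⁻¹ from Or.inr (ord_inv P ξ).ge).mul h2
    rw [← mul_assoc, inv_mul_cancel₀ hξ, one_mul] at h3
    refine h3.mono ?_
    rw [pol_of_lt hP]
    push_cast [Nat.cast_sub hj]
    linarith

theorem V_sup_finrank {ξ : KL l} (hξ : NonConst ξ) {j : ℕ} (hj : 1 ≤ j) :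
    2 * finrank Ω (V ξ j) ≤
      finrank Ω ↥(V ξ j ⊔ (V ξ j).map (mulL ξ)) + finrank Ω (V ξ (j - 1)) := by
  have := V_finite hξ.ne_zero j
  have := V_finite hξ.ne_zero (j - 1)
  have h1 := Submodule.finrank_sup_add_finrank_inf_eq (V ξ j) ((V ξ j).map (mulL ξ))
  have h2 : finrank Ω ((V ξ j).map (mulL ξ)) = finrank Ω (V ξ j) :=
    (LinearEquiv.finrank_eq (Submodule.equivMapOfInjective (mulL ξ) (mulL_inj hξ.ne_zero)
      (V ξ j))).symm
  have h3 : finrank Ω ↥(V ξ j ⊓ (V ξ j).map (mulL ξ)) ≤ finrank Ω (V ξ (j - 1)) := by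
    refine (Submodule.finrank_mono (V_inf_le hξ.ne_zero hj)).trans ?_
    exact Submodule.finrank_map_le (mulL ξ) (V ξ (j - 1))
  omega

/-- the step from `j` to `j + 1` -/
theorem V_succ {ξ : KL l} (hξ : NonConst ξ) {j : ℕ} (hj : 2 ≤ j) :
    V ξ (j + 1) = V ξ j ⊔ (V ξ j).map (mulL ξ) := by
  have := V_finite hξ.ne_zero (j + 1)
  refine (Submodule.eq_of_le_of_finrank_le (sup_le (V_mono (Nat.le_succ j)) (V_mul_le ξ j)) ?_).symm
  have h1 := V_sup_finrank hξ (j := j) (by omega)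
  have h2 := V_finrank hξ (j := j) (by omega)
  have h3 := V_finrank hξ (j := j - 1) (by omega)
  have h4 := V_finrank hξ (j := j + 1) (by omega)
  zify at h1 ⊢
  rw [h2, h3] at h1
  rw [h4]
  push_cast [Nat.cast_sub (show 1 ≤ j by omega)] at h1 ⊢
  linarith

/-- the first step -/
theorem V_two {ξ : KL l} (hξ : NonConst ξ) :
    ∃ y ∈ V ξ 2, V ξ 2 ≤ (V ξ 1 ⊔ (V ξ 1).map (mulL ξ)) ⊔ Submodule.span Ω {y} := by
  have := V_finite hξ.ne_zero 2
  set W := V ξ 1 ⊔ (V ξ 1).map (mulL ξ) with hW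
  have hle : W ≤ V ξ 2 := sup_le (V_mono (by omega)) (V_mul_le ξ 1)
  by_cases heq : V ξ 2 ≤ W
  · exact ⟨0, zero_mem _, heq.trans le_sup_left⟩
  · obtain ⟨y, hy, hyW⟩ := SetLike.not_le_iff_exists.1 heq
    refine ⟨y, hy, ?_⟩
    have h0 : W ⊔ Submodule.span Ω {y} ≤ V ξ 2 :=
      sup_le hle (by rw [Submodule.span_singleton_le_iff_mem]; exact hy)
    refine (Submodule.eq_of_le_of_finrank_le h0 ?_).ge
    have h1 := V_sup_finrank hξ (j := 1) le_rfl
    have h2 := V_finrank hξ (j := 1) le_rfl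
    have h3 := V_zero_finrank (ξ := ξ) hξ.ne_zero
    have h4 := V_finrank hξ (j := 2) (by omega)
    have h5 : finrank Ω W < finrank Ω ↥(W ⊔ Submodule.span Ω {y}) := by
      have : FiniteDimensional Ω ↥(W ⊔ Submodule.span Ω {y}) :=
        Submodule.finiteDimensional_of_le h0
      refine Submodule.finrank_lt_finrank_of_lt (lt_of_le_of_ne le_sup_left fun h => hyW ?_)
      rw [h]
      exact Submodule.mem_sup_right (Submodule.mem_span_singleton_self y)
    rw [Nat.sub_self] at h1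
    rw [← hW] at h1
    zify at h1 h3 h5 ⊢
    rw [h2] at h1
    rw [h4]
    push_cast at h1 ⊢
    linarith

end Pool.Agent.Lib.MP_8ae0c1_agJ
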