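import Pool.Agent.Lib.MP_8ae0c1_agJ.Dim

/-!
# MP_8ae0c1_ag: the projection to a subfield
-/

set_option autoImplicit false
set_option linter.unusedSectionVars false

namespace Pool.Agent.Lib.MP_8ae0c1_agJ

open EllFF Module

variable {Ω : Type} [Field Ω] [IsAlgClosed Ω] [CharZero Ω] {l : Ω} [Leg l]

theorem charZero_KL : CharZero (KL l) := charZero_of_injective_algebraMap (algebraMap Ω (KL l)).injective

theorem finite_of_mem (M : IntermediateField Ω (KL l)) {ξ : KL l} (hξM : ξ ∈ M)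
    (hξ : NonConst ξ) : FiniteDimensional M (KL l) := by
  have h1 : FiniteDimensional (IntermediateField.adjoin Ω {ξ}) (KL l) := finite_adjoin hξ
  have hle : IntermediateField.adjoin Ω {ξ} ≤ M := by
    rw [IntermediateField.adjoin_le_iff]
    rintro _ rfl
    exact hξM
  let _ : Algebra (IntermediateField.adjoin Ω {ξ}) M :=
    (IntermediateField.inclusion hle).toRingHom.toAlgebra
  have : IsScalarTower (IntermediateField.adjoin Ω {ξ}) M (KL l) :=
    IsScalarTower.of_algebraMap_eq fun _ => rfl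
  exact Module.Finite.of_restrictScalars_finite (IntermediateField.adjoin Ω {ξ}) M (KL l)

/-- The trace divided by the degree. -/
noncomputable def pr (M : IntermediateField Ω (KL l)) (h : KL l) : KL l :=
  (finrank M (KL l) : KL l)⁻¹ * algebraMap M (KL l) (Algebra.trace M (KL l) h)

variable (M : IntermediateField Ω (KL l))

theorem pr_mem (h : KL l) : pr M h ∈ M :=
  mul_mem (inv_mem (natCast_mem M _)) (SetLike.coe_mem _)

theorem pr_add (g h : KL l) : pr M (g + h) = pr M g + pr M h := by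
  unfold pr
  rw [map_add, map_add, mul_add]

theorem pr_mul {m : KL l} (hm : m ∈ M) (h : KL l) : pr M (m * h) = m * pr M h := by
  unfold pr
  have h1 : m * h = (⟨m, hm⟩ : M) • h := rfl
  rw [h1, map_smul, smul_eq_mul, map_mul]
  have h2 : algebraMap M (KL l) ⟨m, hm⟩ = m := rfl
  rw [h2]
  ring

theorem pr_self [FiniteDimensional M (KL l)] {m : KL l} (hm : m ∈ M) : pr M m = m := by
  unfold pr
  have := charZero_KL (l := l)
  have h1 : m = algebraMap M (KL l) ⟨m, hm⟩ := rfl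
  have h2 : Algebra.trace M (KL l) m = finrank M (KL l) • (⟨m, hm⟩ : M) :=
    Algebra.trace_algebraMap (⟨m, hm⟩ : M)
  have h3 : (finrank M (KL l) : KL l) ≠ 0 := Nat.cast_ne_zero.2 finrank_pos.ne'
  rw [h2, map_nsmul, nsmul_eq_mul, ← mul_assoc, inv_mul_cancel₀ h3, one_mul, ← h1]

theorem pr_bdd [FiniteDimensional M (KL l)] {ξ : KL l} (hξM : ξ ∈ M) (hξ0 : ξ ≠ 0) {j : ℕ}
    {h : KL l} (hh : Bdd ξ j h) : Bdd ξ j (pr M h) := by
  have h1 := trace_bdd M hξM hξ0 hh
  have h2 := h1.smul ((finrank M (KL l) : Ω)⁻¹)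
  rw [Algebra.smul_def, map_inv₀, map_natCast] at h2
  exact h2

/-- A multiple of every function has only poles at the poles of `ξ`. -/
theorem exists_mult {ξ : KL l} (hξ : NonConst ξ) (h : KL l) :
    ∃ s ∈ Algebra.adjoin Ω {ξ}, s ≠ 0 ∧ ∃ j : ℕ, Bdd ξ j (s * h) := by
  open scoped IntermediateField.algebraAdjoinAdjoin in
  have h1 : FiniteDimensional (IntermediateField.adjoin Ω {ξ}) (KL l) := finite_adjoin hξ
  have h2 : IsAlgebraic (IntermediateField.adjoin Ω {ξ}) h := Algebra.IsAlgebraic.isAlgebraic h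
  have h3 : IsAlgebraic (Algebra.adjoin Ω {ξ}) h :=
    (IsFractionRing.isAlgebraic_iff (Algebra.adjoin Ω {ξ}) (IntermediateField.adjoin Ω {ξ})
      (KL l)).2 h2
  obtain ⟨s, hs0, hs⟩ := h3.exists_integral_multiple
  have hs' : IsIntegral (Algebra.adjoin Ω {ξ}) ((s : KL l) * h) := hs
  refine ⟨s, s.2, fun h0 => hs0 (Subtype.ext h0), ?_⟩
  have h4 := (integral_iff ξ _).1 hs'
  by_cases h0 : (s : KL l) * h = 0
  · exact ⟨0, fun P => Or.inl h0⟩
  have hfin := ord_support h0
  refine ⟨hfin.toFinset.sup fun P => (-ord P ((s : KL l) * h)).toNat, fun P => ?_⟩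
  by_cases hP : 0 ≤ ord P ξ
  · rw [pol_of_ge hP, mul_zero, neg_zero]
    exact h4 P (Or.inr hP)
  · push Not at hP
    right
    by_cases hz : ord P ((s : KL l) * h) = 0
    · rw [hz]
      have := pol_nonneg ξ P
      have h5 : (0 : ℤ) ≤ (hfin.toFinset.sup fun P => (-ord P ((s : KL l) * h)).toNat : ℕ) :=
        Nat.cast_nonneg _
      nlinarith
    · have h5 : (-ord P ((s : KL l) * h)).toNat ≤
          hfin.toFinset.sup fun P => (-ord P ((s : KL l) * h)).toNat :=
        Finset.le_sup (f := fun P => (-ord P ((s : KL l) * h)).toNat)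
          (hfin.mem_toFinset.2 hz)
      have h6 : -ord P ((s : KL l) * h) ≤
          ((hfin.toFinset.sup fun P => (-ord P ((s : KL l) * h)).toNat : ℕ) : ℤ) :=
        (Int.self_le_toNat _).trans (by exact_mod_cast h5)
      have h7 : 1 ≤ pol ξ P := by
        rw [pol_of_lt hP]
        omega
      have h8 : (0 : ℤ) ≤ (hfin.toFinset.sup fun P => (-ord P ((s : KL l) * h)).toNat : ℕ) :=
        Nat.cast_nonneg _
      nlinarith

/-- **Two generators.** -/
theorem two_gen {ξ : KL l} (hξM : ξ ∈ M) (hξ : NonConst ξ)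
    (hmin : ∀ g ∈ M, NonConst g → npoles ξ ≤ npoles g) :
    ∃ η ∈ M, Bdd ξ 2 η ∧ ∀ h ∈ M, ∃ a ∈ IntermediateField.adjoin Ω {ξ},
      ∃ b ∈ IntermediateField.adjoin Ω {ξ}, h = a + b * η := by
  have hfin := finite_of_mem M hξM hξ
  obtain ⟨y, hy, hy2⟩ := V_two hξ
  set A := Algebra.adjoin Ω {ξ} with hA
  have hξA : ξ ∈ A := Algebra.subset_adjoin rfl
  set η := pr M y with hη
  have hlin : ∀ g, Bdd ξ 1 g → pr M g ∈ A := by
    intro g hg
    obtain ⟨a, b, e⟩ := lin_of_bdd hξM hξ hmin (pr_mem M g) (pr_bdd M hξM hξ.ne_zero hg)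
    rw [e]
    exact add_mem (A.algebraMap_mem a) (mul_mem (A.algebraMap_mem b) hξA)
  have hconst : ∀ (a : Ω) (h : KL l), pr M (a • h) = a • pr M h := by
    intro a h
    rw [Algebra.smul_def, pr_mul M (M.algebraMap_mem a), Algebra.smul_def]
  -- all functions with poles at the poles of `ξ`
  have hT : ∀ j : ℕ, ∀ h, Bdd ξ (j + 2) h → ∃ a ∈ A, ∃ b ∈ A, pr M h = a + b * η := by
    intro j
    induction j with
    | zero =>
      intro h hh
      have h1 := hy2 (show h ∈ V ξ 2 from hh)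
      obtain ⟨w, hw, z, hz, e⟩ := Submodule.mem_sup.1 h1
      obtain ⟨g, hg, g', hg', e'⟩ := Submodule.mem_sup.1 hw
      obtain ⟨g1, hg1, rfl⟩ := hg'
      obtain ⟨c, rfl⟩ := Submodule.mem_span_singleton.1 hz
      refine ⟨pr M g + ξ * pr M g1, add_mem (hlin g hg) (mul_mem hξA (hlin g1 hg1)),
        algebraMap Ω (KL l) c, A.algebraMap_mem c, ?_⟩
      rw [← e, ← e', mulL_apply, pr_add, pr_add, pr_mul M hξM, hconst, Algebra.smul_def]
    | succ j ih =>
      intro h hh
      have h1 : h ∈ V ξ (j + 2 + 1) := by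
        have : j + 1 + 2 = j + 2 + 1 := by ring
        rw [this] at hh
        exact hh
      rw [V_succ hξ (by omega)] at h1
      obtain ⟨g, hg, g', hg', e⟩ := Submodule.mem_sup.1 h1
      obtain ⟨g1, hg1, rfl⟩ := hg'
      obtain ⟨a, ha, b, hb, e1⟩ := ih g hg
      obtain ⟨a', ha', b', hb', e2⟩ := ih g1 hg1
      refine ⟨a + ξ * a', add_mem ha (mul_mem hξA ha'), b + ξ * b', add_mem hb (mul_mem hξA hb'), ?_⟩
      rw [← e, mulL_apply, pr_add, pr_mul M hξM, e1, e2]
      ring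
  refine ⟨η, pr_mem M y, pr_bdd M hξM hξ.ne_zero hy, fun h hh => ?_⟩
  obtain ⟨s, hs, hs0, j, hj⟩ := exists_mult hξ h
  have hle : ∀ x ∈ A, x ∈ IntermediateField.adjoin Ω {ξ} :=
    fun x hx => IntermediateField.algebra_adjoin_le_adjoin Ω {ξ} hx
  have hleM : IntermediateField.adjoin Ω {ξ} ≤ M := by
    rw [IntermediateField.adjoin_le_iff]
    rintro _ rfl
    exact hξM
  obtain ⟨a, ha, b, hb, e⟩ := hT j (s * h) (hj.mono (by omega))
  rw [pr_self M (mul_mem (hleM (hle s hs)) hh)] at e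
  refine ⟨s⁻¹ * a, mul_mem (inv_mem (hle s hs)) (hle a ha), s⁻¹ * b,
    mul_mem (inv_mem (hle s hs)) (hle b hb), ?_⟩
  have h2 : h = s⁻¹ * (s * h) := by rw [← mul_assoc, inv_mul_cancel₀ hs0, one_mul]
  rw [h2, e]
  ring

end Pool.Agent.Lib.MP_8ae0c1_agJ
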