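import Pool.Agent.Lib.MP_8ae0c1_ag.Mord

/-!
# MP_8ae0c1_ag: ramification
-/

set_option autoImplicit false
set_option linter.unusedSectionVars false

namespace Pool.Agent.Lib.MP_8ae0c1_agJ

open EllFF Pool.Agent.Lib.MP_8ae0c1_ag

variable {Ω : Type} [Field Ω] [IsAlgClosed Ω] [CharZero Ω] {l : Ω} [Leg l]

theorem OrdGe.pow_ord (P : Place l) (t : KL l) (n : ℕ) : OrdGe P (n * ord P t) (t ^ n) :=
  Or.inr (ord_pow P t n).ge

theorem OrdGe.natCast (P : Place l) (n : ℕ) : OrdGe P 0 (n : KL l) := by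
  have h := OrdGe.const P (n : Ω)
  rwa [map_natCast] at h

/-- The order of `dext D h`. -/
theorem dext_ord (D : Derivation ℤ Ω Ω) (hD : D l = 0) (P : Place l) {h : KL l} (hh : h ≠ 0)
    (h0 : 0 < ord P h) : OrdGe P (ord P h - 1) (dext D h) := by
  obtain ⟨t, ht, ht1⟩ := exists_unif P
  obtain ⟨n, hn⟩ : ∃ n : ℕ, (n : ℤ) = ord P h := ⟨(ord P h).toNat, Int.toNat_of_nonneg h0.le⟩
  have hn0 : 0 < n := by omega
  set u := h / t ^ n with hu
  have htn : t ^ n ≠ 0 := pow_ne_zero n ht
  have hu0 : OrdGe P 0 u := by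
    right
    rw [hu, ord_div P hh htn, ord_pow, ht1]
    omega
  have e : h = t ^ n * u := by
    rw [hu]
    field_simp
  have h1 : dext D h = t ^ n * dext D u + u * (n * (t ^ (n - 1) * dext D t)) := by
    rw [e, Derivation.leibniz, Derivation.leibniz_pow]
    simp only [smul_eq_mul, nsmul_eq_mul]
  rw [h1, ← hn]
  have hDt : OrdGe P 0 (dext D t) := dext_ordGe D hD P (Or.inr (by omega))
  have hDu : OrdGe P 0 (dext D u) := dext_ordGe D hD P hu0
  refine OrdGe.add ?_ ?_
  · have h2 := (OrdGe.pow_ord P t n).mul hDu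
    exact h2.mono (by rw [ht1]; omega)
  · have h2 := hu0.mul ((OrdGe.natCast P n).mul ((OrdGe.pow_ord P t (n - 1)).mul hDt))
    refine h2.mono ?_
    rw [ht1]
    push_cast [Nat.cast_sub (show 1 ≤ n by omega)]
    omega

/-- The derivation `D - c ∂`. -/
noncomputable def dmc (D : Derivation ℤ Ω Ω) (c h : KL l) : KL l := dext D h - c * dd h

theorem dmc_add (D : Derivation ℤ Ω Ω) (c g h : KL l) : dmc D c (g + h) = dmc D c g + dmc D c h := by
  unfold dmc
  rw [map_add, map_add]
  ring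

theorem dmc_mul (D : Derivation ℤ Ω Ω) (c g h : KL l) :
    dmc D c (g * h) = g * dmc D c h + h * dmc D c g := by
  unfold dmc
  rw [Derivation.leibniz, Derivation.leibniz]
  simp only [smul_eq_mul]
  ring

theorem dmc_const (D : Derivation ℤ Ω Ω) (c : KL l) (a : Ω) :
    dmc D c (algebraMap Ω (KL l) a) = algebraMap Ω (KL l) (D a) := by
  unfold dmc
  rw [dext_const, Derivation.map_algebraMap, mul_zero, sub_zero]

/-- The order of `(D - c ∂) h` at a pole of `c`. -/
theorem dmc_ord (D : Derivation ℤ Ω Ω) (hD : D l = 0) (P : Place l) {c : KL l} (hc : c ≠ 0)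
    (hcP : ord P c ≤ -1) {h : KL l} (hh : h ≠ 0) (h0 : 0 < ord P h) :
    dmc D c h ≠ 0 ∧ ord P (dmc D c h) = ord P h - 1 + ord P c := by
  obtain ⟨h1, h2⟩ := dd_ord P hh h0.ne'
  have h3 : -(c * dd h) ≠ 0 := neg_ne_zero.2 (mul_ne_zero hc h1)
  have h4 : ord P (-(c * dd h)) = ord P h - 1 + ord P c := by
    rw [ord_neg, ord_mul P hc h1, h2]
    ring
  have h5 : OrdGe P (ord P (-(c * dd h)) + 1) (dext D h) := by
    rw [h4]
    exact (dext_ord D hD P hh h0).mono (by omega)
  have h6 := ord_add_eq P h3 h5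
  have h7 : dmc D c h = -(c * dd h) + dext D h := by
    unfold dmc
    ring
  rw [h7, ← h4]
  exact h6

/-- **Divisibility of the orders.** -/
theorem dvd_ord (D : Derivation ℤ Ω Ω) (hD : D l = 0) (P : Place l) {c : KL l} (hc : c ≠ 0)
    (hcP : ord P c ≤ -1) (A : Subalgebra Ω (KL l)) (hA : ∀ h ∈ A, OrdGe P 0 h)
    (hAD : ∀ h ∈ A, dmc D c h ∈ A) (n : ℕ) :
    ∀ h ∈ A, h ≠ 0 → ord P h = n → (1 - ord P c) ∣ ord P h := by
  induction n using Nat.strong_induction_on with
  | _ n ih =>
    intro h hhA hh hn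
    rcases Nat.eq_zero_or_pos n with h0 | h0
    · rw [hn, h0]
      exact dvd_zero _
    · obtain ⟨h1, h2⟩ := dmc_ord D hD P hc hcP hh (by omega)
      have h3 := (hA _ (hAD h hhA)).le h1
      obtain ⟨m, hm⟩ : ∃ m : ℕ, (m : ℤ) = ord P (dmc D c h) := ⟨_, Int.toNat_of_nonneg h3⟩
      have h4 := ih m (by omega) _ (hAD h hhA) h1 hm.symm
      have h5 : ord P h = ord P (dmc D c h) + (1 - ord P c) := by rw [h2]; ring
      rw [h5]
      exact dvd_add h4 dvd_rfl

/-- **Ramification.** If `D - c ∂` kills the ratios of the coordinates, then `K` is ramified over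
the field which they generate at all poles of `c`. -/
theorem ramified (v : Fin 3 → KL l) (j : Fin 3) (hj : v j ≠ 0) (D : Derivation ℤ Ω Ω)
    (hD : D l = 0) (c : KL l) (hk : ∀ i, dext D (v i / v j) = c * dd (v i / v j))
    (P : Place l) (hc : c ≠ 0) (hcP : ord P c ≤ -1) :
    ∀ h ∈ IntermediateField.adjoin Ω (Set.range fun i => v i / v j), h ≠ 0 →
      (1 - ord P c) ∣ ord P h := by
  have hv : v ≠ 0 := fun h => hj (by rw [h]; rfl)
  obtain ⟨j', hj', hm⟩ := mord_attained P hv
  -- the coordinates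
  set χ : Fin 3 → KL l := fun i => v i / v j' with hχ
  have hχP : ∀ i, OrdGe P 0 (χ i) := by
    intro i
    by_cases hi : v i = 0
    · left
      rw [hχ]
      simp only
      rw [hi, zero_div]
    · right
      rw [hχ]
      simp only
      rw [ord_div P hi hj', hm]
      have := (mord_ordGe P hv i).le hi
      omega
  have hk' : ∀ i, dmc D c (v i / v j) = 0 := fun i => by
    unfold dmc
    rw [hk i, sub_self]
  have hχD : ∀ i, dmc D c (χ i) = 0 := by
    intro i
    have h1 : v i / v j = χ i * (v j' / v j) := by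
      rw [hχ]
      field_simp
    have h2 := hk' i
    rw [h1, dmc_mul, hk' j', mul_zero, zero_add] at h2
    exact (mul_eq_zero.1 h2).resolve_left (div_ne_zero hj' hj)
  set A := Algebra.adjoin Ω (Set.range χ) with hA
  have hAP : ∀ h ∈ A, OrdGe P 0 h := by
    intro h hh
    induction hh using Algebra.adjoin_induction with
    | mem x hx =>
      obtain ⟨i, rfl⟩ := hx
      exact hχP i
    | algebraMap a => exact OrdGe.const P a
    | add x y _ _ hx hy => exact hx.add hy
    | mul x y _ _ hx hy =>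
      have := hx.mul hy
      rwa [zero_add] at this
  have hAD : ∀ h ∈ A, dmc D c h ∈ A := by
    intro h hh
    induction hh using Algebra.adjoin_induction with
    | mem x hx =>
      obtain ⟨i, rfl⟩ := hx
      rw [hχD i]
      exact zero_mem _
    | algebraMap a =>
      rw [dmc_const]
      exact A.algebraMap_mem _
    | add x y _ _ hx hy =>
      rw [dmc_add]
      exact add_mem hx hy
    | mul x y hx' hy' hx hy =>
      rw [dmc_mul]
      exact add_mem (mul_mem hx' hy) (mul_mem hy' hx)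
  have hdvd : ∀ h ∈ A, h ≠ 0 → (1 - ord P c) ∣ ord P h := by
    intro h hh h0
    obtain ⟨n, hn⟩ : ∃ n : ℕ, (n : ℤ) = ord P h := ⟨_, Int.toNat_of_nonneg ((hAP h hh).le h0)⟩
    exact dvd_ord D hD P hc hcP A hAP hAD n h hh h0 hn.symm
  have hle : IntermediateField.adjoin Ω (Set.range fun i => v i / v j) ≤
      IntermediateField.adjoin Ω (Set.range χ) := by
    rw [IntermediateField.adjoin_le_iff]
    rintro _ ⟨i, rfl⟩
    have h1 : v i / v j = χ i / χ j := by
      rw [hχ]
      field_simp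
    show v i / v j ∈ IntermediateField.adjoin Ω (Set.range χ)
    rw [h1]
    exact div_mem (IntermediateField.subset_adjoin _ _ ⟨i, rfl⟩)
      (IntermediateField.subset_adjoin _ _ ⟨j, rfl⟩)
  intro h hh h0
  obtain ⟨f, hf, g, hg, e⟩ := IntermediateField.mem_adjoin_iff_div.1 (hle hh)
  have hf0 : f ≠ 0 := fun h' => h0 (by rw [e, h', zero_div])
  have hg0 : g ≠ 0 := fun h' => h0 (by rw [e, h', div_zero])
  rw [e, ord_div P hf0 hg0]
  exact dvd_sub (hdvd f hf hf0) (hdvd g hg hg0)

end Pool.Agent.Lib.MP_8ae0c1_agJ
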