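import Pool.Agent.Lib.MP_8ae0c1_agJ.Proj
import Pool.Agent.Lib.MP_8ae0c1_agJ.Ram

/-!
# MP_8ae0c1_ag: a subfield over which the function field is ramified is rational
-/

set_option autoImplicit false
set_option linter.unusedSectionVars false

namespace Pool.Agent.Lib.MP_8ae0c1_agJ

open EllFF Module Polynomial

variable {Ω : Type} [Field Ω] [IsAlgClosed Ω] [CharZero Ω] {l : Ω} [Leg l]

/-! ## Orders of polynomials in a function -/

theorem OrdGe.poly_pole {Q : Place l} {ξ : KL l} (hQ : ord Q ξ < 0) (q : Polynomial Ω) (n : ℕ)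
    (hn : q.natDegree ≤ n) : OrdGe Q (n * ord Q ξ) (aeval ξ q) := by
  rw [aeval_eq_sum_range]
  refine OrdGe.sum _ _ fun i hi => ?_
  have h1 : OrdGe Q (i * ord Q ξ) (ξ ^ i) := Or.inr (ord_pow Q _ _).ge
  refine (h1.mono ?_).smul _
  have h2 : i ≤ n := by
    have := Finset.mem_range.1 hi
    omega
  have h3 : (i : ℤ) ≤ n := by exact_mod_cast h2
  nlinarith

theorem ord_poly_pole {Q : Place l} {ξ : KL l} (hQ : ord Q ξ < 0) {q : Polynomial Ω} (hq : q ≠ 0) :
    aeval ξ q ≠ 0 ∧ ord Q (aeval ξ q) = q.natDegree * ord Q ξ := by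
  have hξ : ξ ≠ 0 := fun h => by
    rw [h, ord_zero] at hQ
    exact absurd hQ (lt_irrefl _)
  have h1 : aeval ξ q = algebraMap Ω (KL l) q.leadingCoeff * ξ ^ q.natDegree +
      aeval ξ q.eraseLead := by
    conv_lhs => rw [← q.eraseLead_add_monomial_natDegree_leadingCoeff]
    rw [map_add, aeval_monomial, add_comm]
  have h2 : algebraMap Ω (KL l) q.leadingCoeff ≠ 0 := by
    rw [Ne, FaithfulSMul.algebraMap_eq_zero_iff, leadingCoeff_eq_zero]
    exact hq
  have h3 : algebraMap Ω (KL l) q.leadingCoeff * ξ ^ q.natDegree ≠ 0 :=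
    mul_ne_zero h2 (pow_ne_zero _ hξ)
  have h4 : ord Q (algebraMap Ω (KL l) q.leadingCoeff * ξ ^ q.natDegree) =
      q.natDegree * ord Q ξ := by
    rw [ord_mul Q h2 (pow_ne_zero _ hξ), ord_const, ord_pow, zero_add]
  rw [h1, ← h4]
  refine ord_add_eq Q h3 ?_
  rw [h4]
  rcases Nat.eq_zero_or_pos q.natDegree with h0 | h0
  · left
    have h5 : q.eraseLead = 0 := by
      rw [← natDegree_eq_zero.1 h0 |>.choose_spec]
      simp
    rw [h5, map_zero]
  · refine (OrdGe.poly_pole hQ q.eraseLead (q.natDegree - 1) (eraseLead_natDegree_le q)).mono ?_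
    push_cast [Nat.cast_sub (show 1 ≤ q.natDegree from h0)]
    nlinarith

theorem OrdGe.poly_reg {Q : Place l} {ξ : KL l} (hQ : OrdGe Q 0 ξ) (q : Polynomial Ω) :
    OrdGe Q 0 (aeval ξ q) := by
  induction q using Polynomial.induction_on' with
  | add p p' hp hp' =>
    rw [map_add]
    exact hp.add hp'
  | monomial n a =>
    rw [aeval_monomial]
    have h1 : OrdGe Q 0 (ξ ^ n) := by
      rcases hQ with h | h
      · rcases Nat.eq_zero_or_pos n with h0 | h0
        · rw [h0, pow_zero]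
          exact Or.inr (ord_one Q).ge
        · left
          rw [h, zero_pow h0.ne']
      · right
        rw [ord_pow]
        positivity
    have h2 := (OrdGe.const Q a).mul h1
    rwa [zero_add] at h2

theorem ord_poly_at {Q : Place l} {ξ : KL l} {g : Ω}
    (hg : OrdGe Q 1 (ξ - algebraMap Ω (KL l) g)) {q : Polynomial Ω} (hq : q.eval g ≠ 0) :
    aeval ξ q ≠ 0 ∧ ord Q (aeval ξ q) = 0 := by
  have hξ : OrdGe Q 0 ξ := by
    have h1 := (hg.mono (show (0 : ℤ) ≤ 1 by norm_num)).add (OrdGe.const Q g)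
    rwa [sub_add_cancel] at h1
  obtain ⟨r, hr⟩ := dvd_iff_isRoot.2 (show (q - C (q.eval g)).IsRoot g by simp [IsRoot.def])
  have h1 : aeval ξ q = algebraMap Ω (KL l) (q.eval g) +
      (ξ - algebraMap Ω (KL l) g) * aeval ξ r := by
    have h2 : q = C (q.eval g) + (X - C g) * r := by rw [← hr]; ring
    conv_lhs => rw [h2]
    rw [map_add, map_mul, map_sub, aeval_X, aeval_C, aeval_C]
  have h2 : algebraMap Ω (KL l) (q.eval g) ≠ 0 := by
    rw [Ne, FaithfulSMul.algebraMap_eq_zero_iff]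
    exact hq
  have h3 : OrdGe Q (ord Q (algebraMap Ω (KL l) (q.eval g)) + 1)
      ((ξ - algebraMap Ω (KL l) g) * aeval ξ r) := by
    rw [ord_const]
    have h4 := hg.mul (OrdGe.poly_reg hξ r)
    exact h4.mono (by norm_num)
  have h4 := ord_add_eq Q h2 h3
  rw [← h1, ord_const] at h4
  exact h4

theorem NonConst.sub {ξ : KL l} (hξ : NonConst ξ) (g : Ω) :
    NonConst (ξ - algebraMap Ω (KL l) g) := fun a ha => hξ (a + g) (by
  rw [map_add, ← ha, sub_add_cancel])

theorem NonConst.inv {ξ : KL l} (hξ : NonConst ξ) : NonConst ξ⁻¹ := fun a ha => hξ a⁻¹ (by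
  rw [map_inv₀, ← ha, inv_inv])

theorem NonConst.exists_zero {ξ : KL l} (hξ : NonConst ξ) (g : Ω) :
    ∃ Q : Place l, OrdGe Q 1 (ξ - algebraMap Ω (KL l) g) := by
  obtain ⟨Q, hQ⟩ := (hξ.sub g).inv.exists_pole
  rw [ord_inv] at hQ
  exact ⟨Q, Or.inr (by omega)⟩

/-- Elements of `Ω(ξ)` with poles at the poles of `ξ` only are polynomials in `ξ`. -/
theorem poly_of_regular {ξ : KL l} (hξ : NonConst ξ) {x : KL l}
    (hx : ∀ P, OrdGe P 0 ξ → OrdGe P 0 x) (n : ℕ) :
    ∀ s : Polynomial Ω, s.natDegree = n → s ≠ 0 → ∀ r : Polynomial Ω, x * aeval ξ s = aeval ξ r →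
      ∃ q : Polynomial Ω, x = aeval ξ q := by
  induction n with
  | zero =>
    intro s hs hs0 r e
    obtain ⟨a, rfl⟩ := natDegree_eq_zero.1 hs
    have ha : a ≠ 0 := fun h => hs0 (by rw [h, C_0])
    have ha' : algebraMap Ω (KL l) a ≠ 0 := by
      rw [Ne, FaithfulSMul.algebraMap_eq_zero_iff]
      exact ha
    refine ⟨r * C a⁻¹, ?_⟩
    rw [map_mul, ← e, aeval_C, aeval_C, map_inv₀, mul_assoc, mul_inv_cancel₀ ha', mul_one]
  | succ n ih =>
    intro s hs hs0 r e
    obtain ⟨g, hg⟩ := IsAlgClosed.exists_root s (fun h => by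
      have h1 : s.natDegree = 0 := natDegree_eq_of_degree_eq_some h
      omega)
    obtain ⟨Q, hQ⟩ := hξ.exists_zero g
    have hξQ : OrdGe Q 0 ξ := by
      have h1 := (hQ.mono (show (0 : ℤ) ≤ 1 by norm_num)).add (OrdGe.const Q g)
      rwa [sub_add_cancel] at h1
    obtain ⟨s', hs'⟩ := dvd_iff_isRoot.2 hg
    have h1 : OrdGe Q 1 (aeval ξ r) := by
      rw [← e, hs', map_mul, map_sub, aeval_X, aeval_C, mul_comm]
      have h2 := (hQ.mul (OrdGe.poly_reg hξQ s')).mul (hx Q hξQ)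
      exact h2.mono (by norm_num)
    have hr : r.eval g = 0 := by
      by_contra hne
      obtain ⟨h2, h3⟩ := ord_poly_at hQ hne
      have h4 := h1.le h2
      omega
    obtain ⟨r', hr'⟩ := dvd_iff_isRoot.2 (show r.IsRoot g from hr)
    have hs'0 : s' ≠ 0 := fun h => hs0 (by rw [hs', h, mul_zero])
    have hξg : ξ - algebraMap Ω (KL l) g ≠ 0 := (hξ.sub g).ne_zero
    refine ih s' ?_ hs'0 r' ?_
    · rw [hs', natDegree_mul (X_sub_C_ne_zero g) hs'0, natDegree_X_sub_C] at hs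
      omega
    · rw [hs', hr', map_mul, map_mul, map_sub, aeval_X, aeval_C] at e
      refine mul_left_cancel₀ hξg ?_
      rw [← e]
      ring

theorem poly_of_bdd {ξ : KL l} (hξ : NonConst ξ) {x : KL l}
    (hxF : x ∈ IntermediateField.adjoin Ω {ξ}) {j : ℕ} (hx : Bdd ξ j x) :
    ∃ q : Polynomial Ω, q.natDegree ≤ j ∧ x = aeval ξ q := by
  obtain ⟨r, s, e⟩ := (IntermediateField.mem_adjoin_simple_iff Ω x).1 hxF
  by_cases hs : aeval ξ s = 0
  · refine ⟨0, by simp, ?_⟩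
    rw [e, hs, div_zero, map_zero]
  have hs0 : s ≠ 0 := fun h => hs (by rw [h, map_zero])
  obtain ⟨q, hq⟩ := poly_of_regular hξ (x := x) (fun P hP => by
    have h1 := hx P
    rw [pol_of_ge (hP.le hξ.ne_zero), mul_zero, neg_zero] at h1
    exact h1) s.natDegree s rfl hs0 r (by rw [e, div_mul_cancel₀ _ hs])
  by_cases hq0 : q = 0
  · exact ⟨0, by simp, by rw [hq, hq0]⟩
  refine ⟨q, ?_, hq⟩
  obtain ⟨Q, hQ⟩ := hξ.exists_pole
  obtain ⟨h1, h2⟩ := ord_poly_pole hQ hq0
  have h3 := (hx Q).le (by rw [hq]; exact h1)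
  rw [hq, h2, pol_of_lt hQ] at h3
  by_contra hcon
  push Not at hcon
  have h4 : (j : ℤ) + 1 ≤ q.natDegree := by exact_mod_cast hcon
  nlinarith

end Pool.Agent.Lib.MP_8ae0c1_agJ
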