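import Pool.Agent.Lib.MP_8ae0c1_agF.EFace

/-!
# MP_8ae0c1_ag: traces of functions with bounded poles
-/

set_option autoImplicit false
set_option linter.unusedSectionVars false

namespace Pool.Agent.Lib.MP_8ae0c1_agJ

open EllFF

variable {Ω : Type} [Field Ω] [IsAlgClosed Ω] [CharZero Ω] {l : Ω} [Leg l]

/-- The trace is regular where `ξ` is regular, if the function is. -/
theorem trace_regular (M : IntermediateField Ω (KL l)) [FiniteDimensional M (KL l)] {ξ : KL l}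
    (hξM : ξ ∈ M) {h : KL l} (hh : ∀ P, OrdGe P 0 ξ → OrdGe P 0 h) :
    ∀ P, OrdGe P 0 ξ → OrdGe P 0 (algebraMap M (KL l) (Algebra.trace M (KL l) h)) := by
  have h1 : IsIntegral (Algebra.adjoin Ω {ξ}) h := (integral_iff ξ h).2 hh
  have hle : Algebra.adjoin Ω {ξ} ≤ M.toSubalgebra := by
    rw [Algebra.adjoin_le_iff]
    rintro _ rfl
    exact hξM
  let f : Algebra.adjoin Ω {ξ} →+* M := (Subalgebra.inclusion hle).toRingHom
  let _ : Algebra (Algebra.adjoin Ω {ξ}) M := f.toAlgebra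
  have : IsScalarTower (Algebra.adjoin Ω {ξ}) M (KL l) := IsScalarTower.of_algebraMap_eq fun _ => rfl
  have h2 : IsIntegral (Algebra.adjoin Ω {ξ}) (Algebra.trace M (KL l) h) :=
    Algebra.isIntegral_trace h1
  have h3 : IsIntegral (Algebra.adjoin Ω {ξ}) (algebraMap M (KL l) (Algebra.trace M (KL l) h)) :=
    h2.algebraMap
  exact (integral_iff ξ _).1 h3

/-- The divisor of the poles. -/
noncomputable def pol (ξ : KL l) (P : Place l) : ℤ := max 0 (-ord P ξ)

theorem pol_nonneg (ξ : KL l) (P : Place l) : 0 ≤ pol ξ P := le_max_left _ _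

theorem pol_of_ge {ξ : KL l} {P : Place l} (h : 0 ≤ ord P ξ) : pol ξ P = 0 := by
  unfold pol
  omega

theorem pol_of_lt {ξ : KL l} {P : Place l} (h : ord P ξ < 0) : pol ξ P = -ord P ξ := by
  unfold pol
  omega

/-- The functions whose poles are at most `j` times the poles of `ξ`. -/
def Bdd (ξ : KL l) (j : ℕ) (h : KL l) : Prop := ∀ P, OrdGe P (-(j * pol ξ P)) h

theorem Bdd.mono {ξ : KL l} {i j : ℕ} (hij : i ≤ j) {h : KL l} (hh : Bdd ξ i h) : Bdd ξ j h :=
  fun P => (hh P).mono (by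
    have := pol_nonneg ξ P
    have h2 : (i : ℤ) ≤ j := by exact_mod_cast hij
    nlinarith)

theorem Bdd.add {ξ : KL l} {j : ℕ} {g h : KL l} (hg : Bdd ξ j g) (hh : Bdd ξ j h) :
    Bdd ξ j (g + h) := fun P => (hg P).add (hh P)

theorem Bdd.sub {ξ : KL l} {j : ℕ} {g h : KL l} (hg : Bdd ξ j g) (hh : Bdd ξ j h) :
    Bdd ξ j (g - h) := fun P => (hg P).sub (hh P)

theorem Bdd.smul {ξ : KL l} {j : ℕ} {h : KL l} (a : Ω) (hh : Bdd ξ j h) : Bdd ξ j (a • h) :=
  fun P => (hh P).smul a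

theorem Bdd.mul {ξ : KL l} {i j : ℕ} {g h : KL l} (hg : Bdd ξ i g) (hh : Bdd ξ j h) :
    Bdd ξ (i + j) (g * h) := fun P => ((hg P).mul (hh P)).mono (by push_cast; linarith)

theorem Bdd.self (ξ : KL l) : Bdd ξ 1 ξ := fun P => Or.inr (by
  unfold pol
  rw [Nat.cast_one, one_mul]
  omega)

theorem Bdd.const (ξ : KL l) (a : Ω) : Bdd ξ 0 (algebraMap Ω (KL l) a) := fun P => by
  rw [Nat.cast_zero, zero_mul, neg_zero]
  exact OrdGe.const P a

/-- **The trace does not increase the poles.** -/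
theorem trace_bdd (M : IntermediateField Ω (KL l)) [FiniteDimensional M (KL l)] {ξ : KL l}
    (hξM : ξ ∈ M) (hξ0 : ξ ≠ 0) {j : ℕ} {h : KL l} (hh : Bdd ξ j h) :
    Bdd ξ j (algebraMap M (KL l) (Algebra.trace M (KL l) h)) := by
  intro P
  by_cases hP : 0 ≤ ord P ξ
  · rw [pol_of_ge hP, mul_zero, neg_zero]
    refine trace_regular M hξM (fun Q hQ => ?_) P (Or.inr hP)
    have h1 := hh Q
    rw [pol_of_ge (hQ.le hξ0), mul_zero, neg_zero] at h1
    exact h1
  · push Not at hP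
    -- the trace of `h * ξ⁻¹ ^ j`
    have hτM : ξ⁻¹ ∈ M := inv_mem hξM
    have h1 : ∀ Q, OrdGe Q 0 ξ⁻¹ → OrdGe Q 0 (ξ⁻¹ ^ j * h) := by
      intro Q hQ
      have h2 := hQ.le (inv_ne_zero hξ0)
      rw [ord_inv] at h2
      have h3 := hh Q
      have h4 : pol ξ Q = -ord Q ξ := by
        unfold pol
        omega
      have h5 : OrdGe Q (j * ord Q ξ⁻¹) (ξ⁻¹ ^ j) := Or.inr (ord_pow Q _ _).ge
      refine (h5.mul h3).mono ?_
      rw [ord_inv, h4]
      linarith
    have h2 := trace_regular M hτM h1 P (Or.inr (by rw [ord_inv]; omega))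
    have h3 : algebraMap M (KL l) (Algebra.trace M (KL l) (ξ⁻¹ ^ j * h)) =
        ξ⁻¹ ^ j * algebraMap M (KL l) (Algebra.trace M (KL l) h) := by
      have h4 : ξ⁻¹ ^ j * h = (⟨ξ⁻¹ ^ j, pow_mem hτM j⟩ : M) • h := rfl
      rw [h4, map_smul, smul_eq_mul, map_mul]
      rfl
    rw [h3] at h2
    have h5 : OrdGe P (j * ord P ξ) (ξ ^ j) := Or.inr (ord_pow P _ _).ge
    have h6 := h5.mul h2
    rw [← mul_assoc, ← mul_pow, mul_inv_cancel₀ hξ0, one_pow, one_mul, add_zero] at h6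
    refine h6.mono ?_
    rw [pol_of_lt hP]
    linarith

end Pool.Agent.Lib.MP_8ae0c1_agJ
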